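import Pool.Agent.N841.LZ.Main
import Pool.Agent.N841.CC.Pol
import Pool.Agent.N710.LZCOH
import Pool.Agent.N507.LZMIX
import Pool.Agent.N348.LZZORN
import Pool.Agent.N796.LZFAM
import Pool.Agent.N671.LZAC
import Pool.Agent.N81.LZDOM
import Pool.Agent.N349.LZSIER

/-!
# MP_414bc7_lc: barely independent families over `ω₁` and uncountable splitting families

`Om` is the set `ω₁`; `BIF`, `Splits`, `dominatingNumber`, `coin`, `SierpinskiSet` are defined in
`Pool/Agent/N841/LZ/Stm.lean`, `SplittingLuzinSet` in `Pool/Agent/N841/LZ/Main.lean`.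

In ZFC the following are equivalent.

* There is a barely independent family over `ω₁`.
* There is a barely independent family over `ω₁` of cardinality `ω₁`.
* There is an uncountable set `X` of subsets of `ω` such that every infinite subset of `ω` is split
  by all but countably many members of `X`.
* Some function `f : ω₁ × ω → 2` is constant on no product `A × R` of an uncountable set `A` and an
  infinite set `R` (the polarized partition relation `(ω₁, ω) → (ω₁, ω)` fails).

They hold if `𝔡 = ω₁` and also if there is a Sierpiński set.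

Proof. If the `A_n` are distinct members of a barely independent family, then the sets
`S_α = {n | α ∈ A_n}` form a sequence as in the third item. Conversely let `S_α` be such a sequence
and `e_α : α → ω` (`α < ω₁`) coherent finite-to-one functions, `A_ξ = {α > ξ | e_α(ξ) ∈ S_α}`. For
infinite `Ξ ⊆ ω₁` every Boolean combination of the `A_ξ`, `ξ ∈ Ξ`, is countable, and for every
uncountable `C` all but finitely many `A_ξ` cut `C` into two uncountable sets. So a maximal set `M`
such that the finite Boolean combinations of the `A_ξ`, `ξ ∈ M`, are uncountable is itself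
uncountable. If `𝔡 = ω₁` one takes for the `S_α` unions of every second interval of the interval
partitions given by a scale.

Written by helper841 with helpers 710, 507, 348, 796, 671, 81, 349.
-/

set_option autoImplicit false

namespace Pool.Agent.Results.MP_414bc7_lc.SplittingSets

open Cardinal Pool.Agent.N841.LZ

theorem result :
    -- a family over `ω₁` gives one of cardinality `ω₁`
    ((∃ 𝓘 : Set (Set Om), BIF 𝓘) → ∃ 𝓘 : Set (Set Om), BIF 𝓘 ∧ #𝓘 = ℵ₁) ∧
    -- the characterization
    ((∃ 𝓘 : Set (Set Om), BIF 𝓘) ↔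
      ∃ X : Set (Set ℕ), ¬ X.Countable ∧
        ∀ R : Set ℕ, R.Infinite → {S | S ∈ X ∧ ¬ Splits S R}.Countable) ∧
    -- the polarized partition relation
    ((∃ 𝓘 : Set (Set Om), BIF 𝓘) ↔
      ∃ f : Om → ℕ → Bool, ∀ (A : Set Om) (R : Set ℕ) (b : Bool), R.Infinite →
        (∀ a ∈ A, ∀ n ∈ R, f a n = b) → A.Countable) ∧
    -- sufficient conditions
    (dominatingNumber = ℵ₁ → ∃ 𝓘 : Set (Set Om), BIF 𝓘 ∧ #𝓘 = ℵ₁) ∧
    (SierpinskiSet → ∃ 𝓘 : Set (Set Om), BIF 𝓘 ∧ #𝓘 = ℵ₁) :=
  have h := final N710.LZCOH.t_COH N507.LZMIX.t_MIX N348.LZZORN.t_ZORN N796.LZFAM.t_FAM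
    N671.LZAC.t_AC N81.LZDOM.t_DOM N349.LZSIER.t_SIER
  ⟨h.1, h.2.1, (h.2.1.trans tail_iff.symm).trans Pool.Agent.N841.CC.polarized, h.2.2.1, h.2.2.2⟩

end Pool.Agent.Results.MP_414bc7_lc.SplittingSets
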